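import Pool.Agent.Helper99.SZ.Stmts3
import Pool.Agent.Helper77.SZ.PN2

set_option autoImplicit false

namespace Pool.Helper99.SZ

open NumberField

/-- the numerical contradiction -/
lemma pn3_num (D v K Lc N t n : ℕ) (U l G : ℝ) (hvn : v ≤ n) (hv : 1 ≤ v) (hD : 1 ≤ D)
    (hU : 1 ≤ U) (hl : 1 ≤ l) (hG : 1 ≤ G)
    (hK : 4096 * ((n : ℝ) + 1) * D * U ≤ K * G)
    (hLc : 4096 * ((n : ℝ) + 1) ^ 2 * D * l ≤ Lc * G) (hLn : 32 * (n + 1) ≤ Lc) (hK1 : 1 ≤ K)
    (hN1 : Lc ≤ N) (hN : N ≤ (K + 1) ^ v * Lc) (ht : t = N * Lc * K / (32 * v))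
    (h : (t : ℝ) * G ≤ D * ((N : ℝ) * ((Lc : ℝ) * U + Real.log N +
      (K * l + (Lc : ℝ) * U)))) : False := by
  have hD1 : (1 : ℝ) ≤ D := by exact_mod_cast hD
  have hv1 : (1 : ℝ) ≤ v := by exact_mod_cast hv
  have hvn1 : (v : ℝ) ≤ n + 1 := by
    have : (v : ℝ) ≤ n := by exact_mod_cast hvn
    linarith
  have hvD : 1 ≤ (v : ℝ) * D := by nlinarith
  have hvD0 : 0 ≤ (v : ℝ) * D := by linarith
  have hG0 : 0 < G := by linarith
  have hK0 : (0 : ℝ) < K := by exact_mod_cast hK1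
  have hL0 : (0 : ℝ) < Lc := by
    have : 0 < Lc := by omega
    exact_mod_cast this
  have hN0 : (0 : ℝ) < N := by
    have : 0 < N := by omega
    exact_mod_cast this
  have hKL0 : 0 < (K : ℝ) * Lc := by positivity
  -- the lower bound for `t`
  have ht1 : (N : ℝ) * Lc * K < 32 * v * (t + 1) := by
    have h1 : N * Lc * K < 32 * v * (t + 1) := by
      rw [ht]
      exact Nat.lt_mul_div_succ (N * Lc * K) (by omega : 0 < 32 * v)
    exact_mod_cast h1
  have hKL1 : 64 * (v : ℝ) ≤ N * Lc * K := by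
    have h1 : 64 * v ≤ N * Lc * K := by
      have h2 : 64 ≤ N := by omega
      have h3 : v ≤ Lc := by omega
      calc 64 * v ≤ N * Lc := Nat.mul_le_mul h2 h3
        _ = N * Lc * 1 := by ring
        _ ≤ N * Lc * K := Nat.mul_le_mul_left _ hK1
    exact_mod_cast h1
  have ht2 : (N : ℝ) * Lc * K ≤ 64 * v * t := by nlinarith
  have hmain : (N : ℝ) * (K * Lc * G) ≤ N * (64 * (v * D) * ((Lc : ℝ) * U + Real.log N +
      (K * l + (Lc : ℝ) * U))) := by
    have h2 : 64 * (v : ℝ) * (t * G) ≤ 64 * v * (D * ((N : ℝ) * ((Lc : ℝ) * U +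
      Real.log N + (K * l + (Lc : ℝ) * U)))) :=
      mul_le_mul_of_nonneg_left h (by linarith)
    have h3 : (N : ℝ) * Lc * K * G ≤ 64 * v * t * G := mul_le_mul_of_nonneg_right ht2 hG0.le
    have h4 : 64 * (v : ℝ) * (D * ((N : ℝ) * ((Lc : ℝ) * U + Real.log N +
      (K * l + (Lc : ℝ) * U)))) = N * (64 * (v * D) * ((Lc : ℝ) * U + Real.log N +
      (K * l + (Lc : ℝ) * U))) := by ring
    rw [h4] at h2
    have h5 : (N : ℝ) * (K * Lc * G) = N * Lc * K * G := by ring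
    have h6 : 64 * (v : ℝ) * t * G = 64 * (v : ℝ) * (t * G) := by ring
    rw [h5]
    rw [h6] at h3
    exact h3.trans h2
  have hmain2 := le_of_mul_le_mul_left hmain hN0
  -- log N
  have hlogN : Real.log N ≤ v * K + Lc := by
    have h1 : Real.log N ≤ Real.log (((K : ℝ) + 1) ^ v * Lc) := by
      apply Real.log_le_log hN0
      exact_mod_cast hN
    have h2 : Real.log (((K : ℝ) + 1) ^ v * Lc) = v * Real.log ((K : ℝ) + 1) + Real.log Lc := by
      rw [Real.log_mul (by positivity) (by positivity), Real.log_pow]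
    have h3 : Real.log (Lc : ℝ) ≤ Lc := (Real.log_le_sub_one_of_pos hL0).trans (by linarith)
    have h4 : Real.log ((K : ℝ) + 1) ≤ K :=
      (Real.log_le_sub_one_of_pos (by positivity)).trans (by linarith)
    have h5 : (v : ℝ) * Real.log ((K : ℝ) + 1) ≤ v * K :=
      mul_le_mul_of_nonneg_left h4 (by linarith)
    linarith
  -- the two basic inequalities
  have hDU0 : 0 ≤ (D : ℝ) * U := by positivity
  have b1 : 4096 * ((v : ℝ) * D) * U ≤ K * G := by
    refine le_trans ?_ hK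
    have : (v : ℝ) * (D * U) ≤ ((n : ℝ) + 1) * (D * U) := mul_le_mul_of_nonneg_right hvn1 hDU0
    nlinarith
  have b2 : 4096 * ((v : ℝ) * D) ≤ K * G := by
    refine le_trans ?_ b1
    nlinarith
  have hn1 : (1 : ℝ) ≤ (n : ℝ) + 1 := le_trans hv1 hvn1
  have b3 : 4096 * ((v : ℝ) * v * D) * l ≤ Lc * G := by
    refine le_trans ?_ hLc
    have h1 : (v : ℝ) * v ≤ ((n : ℝ) + 1) ^ 2 := by nlinarith
    have h2 : 0 ≤ (D : ℝ) * l := by positivity
    have := mul_le_mul_of_nonneg_right h1 h2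
    nlinarith
  have b4 : 4096 * ((v : ℝ) * v * D) ≤ Lc * G := by
    refine le_trans ?_ b3
    have h2 : 0 ≤ (v : ℝ) * v * D := by positivity
    nlinarith
  have b5 : 4096 * ((v : ℝ) * D) * l ≤ Lc * G := by
    refine le_trans ?_ b3
    have h2 : (v : ℝ) * D ≤ v * v * D := by nlinarith
    have h3 : (v : ℝ) * D * l ≤ v * v * D * l := mul_le_mul_of_nonneg_right h2 (by linarith)
    nlinarith
  have hA : 4096 * (((v : ℝ) * D) * U * Lc) ≤ K * Lc * G := by
    have := mul_le_mul_of_nonneg_right b1 hL0.le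
    nlinarith
  have hB : 4096 * (((v : ℝ) * D) * l * K) ≤ K * Lc * G := by
    have := mul_le_mul_of_nonneg_right b5 hK0.le
    nlinarith
  have hC : 4096 * (((v : ℝ) * D) * (v * K)) ≤ K * Lc * G := by
    have := mul_le_mul_of_nonneg_right b4 hK0.le
    nlinarith
  have hE : 4096 * (((v : ℝ) * D) * Lc) ≤ K * Lc * G := by
    have := mul_le_mul_of_nonneg_right b2 hL0.le
    nlinarith
  have hF : ((v : ℝ) * D) * Real.log N ≤ ((v : ℝ) * D) * (v * K) + ((v : ℝ) * D) * Lc := by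
    have := mul_le_mul_of_nonneg_left hlogN hvD0
    linarith
  have hfin : 64 * ((v : ℝ) * D) * ((Lc : ℝ) * U + Real.log N + (K * l + (Lc : ℝ) * U)) =
      128 * (((v : ℝ) * D) * U * Lc) + 64 * (((v : ℝ) * D) * l * K) +
        64 * (((v : ℝ) * D) * Real.log N) := by ring
  rw [hfin] at hmain2
  have hpos : 0 < (K : ℝ) * Lc * G := by positivity
  linarith

theorem st_PN3 (h1 : BK.ST_MINOR) (h2 : ST_PD3) (h3 : ST_PAR) (h4 : ST_DVB) : ST_PN3 := by
  intro n D hD1 L _ _ hD P hPr hPb p hpp hpm jj T g0 g nrm G Z U l K Lc hjj hG hZ hGp hLD hg0 hg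
    hOD hU hl hZl hK hLc hLn hT v V hv hV J hJ
  by_contra hcon
  push Not at hcon
  have hinj : ∀ x : Sx v K × Fin Lc → L, (∀ a : ℤ × (Fin n → ℤ), nrm a ≤ U →
      (fun i => ((a.2 i : ℤ) : ℚ)) ∈ V →
      ∑ j, x j * ((∏ i, ((a.2 (J i) : ℤ) : L) ^ (j.1.1 i : ℕ)) *
        (g0 ^ a.1 * ∏ i, g i ^ (a.2 i)) ^ (j.2 : ℕ)) = 0) → x = 0 := by
    intro x hx
    by_contra hx0
    obtain ⟨a, ha1, ha2, ha3⟩ := hcon x hx0
    exact ha3 (hx a ha1 ha2)
  obtain ⟨_, _, _, _, _, _, hb7, _, _⟩ := h4 L P hPr hPb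
  obtain ⟨row, hrow⟩ := h1 L {a : ℤ × (Fin n → ℤ) // nrm a ≤ U ∧
      (fun i => ((a.2 i : ℤ) : ℚ)) ∈ V} (Sx v K × Fin Lc)
    (fun a j => pn2_E g0 g J a.1 j) (by
      intro x hx
      refine hinj x (fun a ha1 ha2 => ?_)
      rw [← hx ⟨a, ha1, ha2⟩]
      exact Finset.sum_congr rfl (fun j _ => mul_comm _ _))
  -- sizes
  have hvn : v ≤ n := by
    have h5 := Submodule.finrank_le V
    rw [hV, Module.finrank_fintype_fun_eq_card, Fintype.card_fin] at h5
    exact h5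
  have hv1 : (1 : ℝ) ≤ v := by exact_mod_cast hv
  have hD1' : (1 : ℝ) ≤ D := by exact_mod_cast hD1
  have hLv : 32 * v ≤ Lc := by omega
  have hK1 : 1 ≤ K := by
    rcases Nat.eq_zero_or_pos K with h5 | h5
    · exfalso
      rw [h5] at hK
      have h6 : (0 : ℝ) < 4096 * ((n : ℝ) + 1) * D * U := by positivity
      simp only [CharP.cast_eq_zero, zero_mul] at hK
      linarith
    · exact h5
  have hT1 : 1 ≤ T := by
    refine le_trans ?_ hT
    have h5 : 1 ≤ Lc := by omega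
    calc 1 = 1 * 1 * 1 := by norm_num
      _ ≤ K * Lc * jj := Nat.mul_le_mul (Nat.mul_le_mul hK1 h5) hjj
  obtain ⟨N, hN⟩ : ∃ N : ℕ, N = Fintype.card (Sx v K × Fin Lc) := ⟨_, rfl⟩
  obtain ⟨t, ht⟩ : ∃ t : ℕ, t = N * Lc * K / (32 * v) := ⟨_, rfl⟩
  have ht32 : 32 * v * t ≤ N * Lc * K := by
    rw [ht]
    exact Nat.mul_div_le _ _
  have hc1 : 16 * v * t ≤ N * Lc * K := by
    have h5 : 16 * v * t ≤ 32 * v * t := Nat.mul_le_mul_right t (by omega)
    exact h5.trans ht32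
  have hc2 : 2 * (jj * t) ≤ N * T := by
    have h5 : 2 * t ≤ 32 * v * t := Nat.mul_le_mul_right t (by omega)
    have h6 : N * (K * Lc * jj) ≤ N * T := Nat.mul_le_mul_left N hT
    have h7 : N * (K * Lc * jj) = jj * (N * Lc * K) := by ring
    rw [h7] at h6
    have h8 : jj * (2 * t) ≤ jj * (N * Lc * K) := Nat.mul_le_mul_left jj (h5.trans ht32)
    calc 2 * (jj * t) = jj * (2 * t) := by ring
      _ ≤ N * T := h8.trans h6
  have hNle : N ≤ (K + 1) ^ v * Lc := by
    rw [hN, Fintype.card_prod, Fintype.card_fin]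
    apply Nat.mul_le_mul_right
    refine (Fintype.card_subtype_le _).trans (le_of_eq ?_)
    rw [Fintype.card_fun, Fintype.card_fin, Fintype.card_fin]
  have hN1 : Lc ≤ N := by
    rw [hN, Fintype.card_prod, Fintype.card_fin]
    have h5 : 0 < Fintype.card (Sx v K) := by
      have : Nonempty (Sx v K) := ⟨⟨fun _ => 0, by simp⟩⟩
      exact Fintype.card_pos
    exact Nat.le_mul_of_pos_left _ h5
  have hdv : Dv P (jj * t) (Matrix.of (fun i j => pn2_E (K := K) (Lc := Lc) g0 g J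
      (row i).1 j)).det := by
    have h5 := h2 L P hPr hPb p hpp hpm n v K Lc T t jj hv hjj V hV J hJ
      (fun i => (row i).1.2) (fun i => (row i).2.2) g hg hOD (fun i => g0 ^ (row i).1.1)
      hT1 (fun i => hb7 T g0 _ hT1 hg0) hK1 hLv (by rw [← hN]; exact hc1)
      (by rw [← hN]; exact hc2)
    have h6 : (Matrix.of (fun i j => pn2_E (K := K) (Lc := Lc) g0 g J (row i).1 j)) =
        Matrix.of (fun i j : Sx v K × Fin Lc =>
          (∏ k, (((row i).1.2 (J k) : ℤ) : L) ^ (j.1.1 k : ℕ)) *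
            ((∏ k, g k ^ ((row i).1.2 k)) * g0 ^ (row i).1.1) ^ (j.2 : ℕ)) := by
      ext i j
      rw [Matrix.of_apply, Matrix.of_apply]
      unfold pn2_E
      rw [mul_comm (g0 ^ (row i).1.1)]
    rw [h6]
    exact h5
  choose q hq0 hq1 hq2 using fun i => hLD.den (row i).1
  have hU0 : 0 ≤ U := by linarith
  have hZU : 1 ≤ Z * U := one_le_mul_of_one_le_of_one_le hZ hU
  have hpar := h3 L P hPr hPb p hpp hpm (Sx v K × Fin Lc)
    (Matrix.of (fun i j => pn2_E g0 g J (row i).1 j)) hrow (fun i => q i ^ Lc)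
    (fun i => Nat.pow_pos (hq0 i))
    (fun i j => by
      rw [Matrix.of_apply]
      exact pn2_int g0 g J (row i).1 j (q i) (hq2 i))
    (Real.exp U ^ Lc) ((Z * U) ^ K * Real.exp U ^ Lc)
    (one_le_pow₀ (Real.one_le_exp hU0))
    (one_le_mul_of_one_le_of_one_le (one_le_pow₀ hZU)
      (one_le_pow₀ (Real.one_le_exp hU0)))
    (fun τ i j => by
      rw [Matrix.of_apply]
      exact pn2_conj g0 g J (row i).1 j U (Z * U) hZU hU0
        (fun i' => (hLD.coo _ i').trans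
          (mul_le_mul_of_nonneg_left (row i).2.1 (by linarith))) τ
        ((hLD.conj _ τ).trans (Real.exp_le_exp.mpr (row i).2.1)))
    (fun i => by
      rw [Nat.cast_pow]
      exact pow_le_pow_left₀ (Nat.cast_nonneg _)
        ((hq1 i).trans (Real.exp_le_exp.mpr (row i).2.1)) _)
    (jj * t) hdv
  rw [← hN] at hpar
  have hZ0 : 0 < Z * U := by linarith
  have hlogQ : Real.log (Real.exp U ^ Lc) = (Lc : ℝ) * U := by
    rw [Real.log_pow, Real.log_exp]
  have hlogB : Real.log ((Z * U) ^ K * Real.exp U ^ Lc) =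
      K * Real.log (Z * U) + (Lc : ℝ) * U := by
    rw [Real.log_mul (by positivity) (by positivity), hlogQ, Real.log_pow]
  rw [hlogQ, hlogB] at hpar
  have hlogZ0 : 0 ≤ Real.log (Z * U) := Real.log_nonneg hZU
  have hlogN0 : 0 ≤ Real.log (N : ℝ) := Real.log_natCast_nonneg N
  refine pn3_num D v K Lc N t n U l G hvn hv hD1 hU hl hG hK hLc hLn hK1 hN1 hNle ht ?_
  have hleft : (t : ℝ) * G ≤ ((jj * t : ℕ) : ℝ) * Real.log p := by
    have h5 : (t : ℝ) * G ≤ t * (jj * Real.log p) :=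
      mul_le_mul_of_nonneg_left hGp (Nat.cast_nonneg t)
    refine h5.trans (le_of_eq ?_)
    push_cast
    ring
  refine hleft.trans (hpar.trans ?_)
  have hbr : (Lc : ℝ) * U + Real.log N + (K * Real.log (Z * U) + (Lc : ℝ) * U) ≤
      (Lc : ℝ) * U + Real.log N + (K * l + (Lc : ℝ) * U) := by
    have h5 : (K : ℝ) * Real.log (Z * U) ≤ K * l :=
      mul_le_mul_of_nonneg_left hZl (Nat.cast_nonneg K)
    linarith
  refine mul_le_mul (by exact_mod_cast hD)
    (mul_le_mul_of_nonneg_left hbr (Nat.cast_nonneg N)) ?_ (Nat.cast_nonneg D)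
  refine mul_nonneg (Nat.cast_nonneg N) ?_
  positivity

end Pool.Helper99.SZ
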